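import Mathlib
import Pool.Agent.Q154.MixedRadix
import Pool.Agent.Q154.Signing

/-!
# An IP set that is not expanding
-/

namespace Pool.Agent.Results.MP_23b914_co.IPNotExpanding

open Finset Filter Q154.BohrSingle Q154.MixedRadix Q154.Signing

/-- The Bohr neighbourhood of `0` in the integers given by frequencies `α` and radius `η`. -/
def bohr {k : ℕ} (α : Fin k → ℝ) (η : ℝ) : Set ℤ :=
  {x | ∀ j, ‖Complex.exp (2 * Real.pi * Complex.I * (α j * x : ℝ)) - 1‖ < η}

/-- Upper Banach density of a set of integers. -/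
noncomputable def upperBanach (A : Set ℤ) : ℝ :=
  limsup (fun N : ℕ => ⨆ M : ℤ, ((A ∩ Set.Icc (M + 1) (M + N)).ncard : ℝ) / N) atTop

/-- The set of all finite nonempty subsums of a sequence. -/
def FS (x : ℕ → ℕ) : Set ℤ := {s | ∃ F : Finset ℕ, F.Nonempty ∧ s = ∑ n ∈ F, (x n : ℤ)}

theorem ratio_le (A : Set ℤ) (M : ℤ) (N : ℕ) :
    ((A ∩ Set.Icc (M + 1) (M + N)).ncard : ℝ) / N ≤ 1 := by
  apply div_le_one_of_le₀ _ (Nat.cast_nonneg _)
  have h1 : (A ∩ Set.Icc (M + 1) (M + N)).ncard ≤ (Set.Icc (M + 1) (M + N)).ncard :=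
    Set.ncard_le_ncard Set.inter_subset_right (Set.finite_Icc _ _)
  have h2 : (Set.Icc (M + 1) (M + (N : ℤ))).ncard = N := by
    rw [← Finset.coe_Icc, Set.ncard_coe_finset, Int.card_Icc]
    omega
  rw [h2] at h1
  exact_mod_cast h1

theorem le_upperBanach (A : Set ℤ) (δ : ℝ)
    (h : ∃ᶠ N : ℕ in atTop, ∃ M : ℤ, δ ≤ ((A ∩ Set.Icc (M + 1) (M + N)).ncard : ℝ) / N) :
    δ ≤ upperBanach A := by
  have hb : ∀ N : ℕ, BddAbove (Set.range fun M : ℤ =>
      ((A ∩ Set.Icc (M + 1) (M + N)).ncard : ℝ) / N) := fun N => ⟨1, by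
    rintro _ ⟨M, rfl⟩
    exact ratio_le A M N⟩
  unfold upperBanach
  refine le_limsup_of_frequently_le (h.mono ?_) ⟨1, ?_⟩
  · rintro N ⟨M, hM⟩
    exact hM.trans (le_ciSup (hb N) M)
  · exact Filter.eventually_map.2 (Eventually.of_forall fun N =>
      ciSup_le fun M => ratio_le A M N)

/-- The exponential is close to one near the integers. -/
theorem exp_close (y : ℝ) (z : ℤ) (δ : ℝ) (h : |y - z| ≤ δ) :
    ‖Complex.exp (2 * Real.pi * Complex.I * (y : ℝ)) - 1‖ ≤ 2 * Real.pi * δ := by
  have h1 : Complex.exp (2 * Real.pi * Complex.I * (y : ℝ)) =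
      Complex.exp (Complex.I * ((2 * Real.pi * (y - z) : ℝ) : ℂ)) := by
    have h2 : (2 * Real.pi * Complex.I * (y : ℝ) : ℂ) =
        Complex.I * ((2 * Real.pi * (y - z) : ℝ) : ℂ) + z * (2 * Real.pi * Complex.I) := by
      push_cast; ring
    rw [h2, Complex.exp_add, Complex.exp_int_mul_two_pi_mul_I, mul_one]
  rw [h1]
  have h3 := Real.norm_exp_I_mul_ofReal_sub_one_le (x := 2 * Real.pi * (y - z))
  refine h3.trans ?_
  rw [Real.norm_eq_abs, abs_mul, abs_of_pos (by positivity : (0 : ℝ) < 2 * Real.pi)]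
  gcongr

/-- Extending a finitely supported function to the even positions. -/
noncomputable def evenPart (I : Finset ℕ) (ε : ℕ → ℤ) : ℕ →₀ ℤ :=
  ∑ i ∈ I, Finsupp.single (2 * i) (ε i)

theorem evenPart_even (I : Finset ℕ) (ε : ℕ → ℤ) (i : ℕ) :
    evenPart I ε (2 * i) = if i ∈ I then ε i else 0 := by
  unfold evenPart
  rw [Finsupp.finsetSum_apply]
  have h1 : ∀ j ∈ I, (Finsupp.single (2 * j) (ε j)) (2 * i) = if j = i then ε j else 0 := by
    intro j _
    rw [Finsupp.single_apply]
    by_cases hji : j = i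
    · simp [hji]
    · rw [if_neg (by omega), if_neg hji]
  rw [Finset.sum_congr rfl h1, Finset.sum_ite_eq']

theorem evenPart_odd (I : Finset ℕ) (ε : ℕ → ℤ) (i : ℕ) : evenPart I ε (2 * i + 1) = 0 := by
  unfold evenPart
  rw [Finsupp.finsetSum_apply]
  apply Finset.sum_eq_zero
  intro j _
  rw [Finsupp.single_apply, if_neg (by omega)]

/-- The indicator of a finite set in the odd positions. -/
noncomputable def oddPart (F : Finset ℕ) : ℕ →₀ ℤ := ∑ i ∈ F, Finsupp.single (2 * i + 1) 1

theorem oddPart_even (F : Finset ℕ) (i : ℕ) : oddPart F (2 * i) = 0 := by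
  unfold oddPart
  rw [Finsupp.finsetSum_apply]
  apply Finset.sum_eq_zero
  intro j _
  rw [Finsupp.single_apply, if_neg (by omega)]

theorem oddPart_odd (F : Finset ℕ) (i : ℕ) :
    oddPart F (2 * i + 1) = if i ∈ F then 1 else 0 := by
  unfold oddPart
  rw [Finsupp.finsetSum_apply]
  have h1 : ∀ j ∈ F, (Finsupp.single (2 * j + 1) (1 : ℤ)) (2 * i + 1) =
      if j = i then 1 else 0 := by
    intro j _
    rw [Finsupp.single_apply]
    by_cases hji : j = i
    · simp [hji]
    · rw [if_neg (by omega), if_neg hji]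
  rw [Finset.sum_congr rfl h1, Finset.sum_ite_eq']

theorem dval_single (j : ℕ) (a : ℤ) : dval (Finsupp.single j a) = a * t j := by
  unfold dval
  rw [Finsupp.sum_single_index]
  simp

theorem dval_sum {ι : Type*} (s : Finset ι) (f : ι → ℕ →₀ ℤ) :
    dval (∑ i ∈ s, f i) = ∑ i ∈ s, dval (f i) := by
  classical
  induction s using Finset.induction_on with
  | empty => simp [dval]
  | insert a s ha ih => rw [Finset.sum_insert ha, Finset.sum_insert ha, dval_add, ih]

theorem dval_evenPart (I : Finset ℕ) (ε : ℕ → ℤ) :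
    dval (evenPart I ε) = ∑ i ∈ I, ε i * t (2 * i) := by
  unfold evenPart
  rw [dval_sum]
  exact Finset.sum_congr rfl fun i _ => dval_single _ _

theorem dval_oddPart (F : Finset ℕ) : dval (oddPart F) = ∑ i ∈ F, (t (2 * i + 1) : ℤ) := by
  unfold oddPart
  rw [dval_sum]
  apply Finset.sum_congr rfl
  intro i _
  rw [dval_single, one_mul]

/-- There are a sequence of positive integers and a set `A` of integers of positive upper Banach
density such that `A - A + FS(x)` contains no Bohr set. -/
theorem result : ∃ (x : ℕ → ℕ) (A : Set ℤ), (∀ n, 0 < x n) ∧ 0 < upperBanach A ∧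
    ∀ (k : ℕ) (α : Fin k → ℝ) (η : ℝ), 0 < η →
      ¬ (bohr α η ⊆ {z | ∃ a ∈ A, ∃ a' ∈ A, ∃ s ∈ FS x, z = a - a' + s}) := by
  classical
  obtain ⟨B, hB1, hB2⟩ := exists_dense
  set A : Set ℤ := {z | ∃ d : ℕ →₀ ℤ, (∀ j, |d j| ≤ h j - 1) ∧ par d ∈ B ∧ z = dval d} with hA
  refine ⟨fun n => t (2 * n + 1), A, fun n => t_pos _, ?_, ?_⟩
  · have hδ : (1 : ℝ) / 16 ≤ upperBanach A := by
      apply le_upperBanach
      rw [Filter.frequently_atTop] at hB1 ⊢
      intro a
      obtain ⟨K, hKa, hK⟩ := hB1 a
      set N := N nn K with hN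
      set Y := (H N).filter fun x => x ∈ B with hY
      have hYH : Y ⊆ H N := Finset.filter_subset _ _
      have hKN : K ≤ N := by
        have : ∀ K, K ≤ Q154.BohrSingle.N nn K := by
          intro K
          induction K with
          | zero => exact Nat.zero_le _
          | succ k ih =>
            have e : Q154.BohrSingle.N nn (k + 1) = Q154.BohrSingle.N nn k + nn k + nn k := rfl
            have := nn_large k
            omega
        exact this K
      have htN : ∀ j, j < t j := by
        intro j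
        induction j with
        | zero => exact Nat.one_pos
        | succ j ih =>
          have e : t (j + 1) = (2 * Q154.MixedRadix.h j + 1) * t j := rfl
          have := h_pos j
          rw [e]
          nlinarith
      have hta : a ≤ t (2 * N) := by have := htN (2 * N); omega
      refine ⟨t (2 * N), hta, -(((t (2 * N) : ℤ) + 1) / 2), ?_⟩
      have hodd : (t (2 * N)) % 2 = 1 := by
        have : ∀ j, t j % 2 = 1 := by
          intro j
          induction j with
          | zero => rfl
          | succ j ih =>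
            have e : t (j + 1) = (2 * Q154.MixedRadix.h j + 1) * t j := rfl
            rw [e, Nat.mul_mod, ih]
            omega
        exact this _
      have hcard := card_DY hYH
      have hb := b_prod N
      have hsub : ((DY Y N).image dval : Set ℤ) ⊆ A ∩ Set.Icc (-(((t (2 * N) : ℤ) + 1) / 2) + 1)
          (-(((t (2 * N) : ℤ) + 1) / 2) + (t (2 * N) : ℕ)) := by
        intro z hz
        rw [Finset.mem_coe, Finset.mem_image] at hz
        obtain ⟨d, hd, rfl⟩ := hz
        obtain ⟨h1, h2, h3⟩ := mem_DY hYH hd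
        refine ⟨⟨d, h1, (Finset.mem_filter.1 h2).2, rfl⟩, ?_⟩
        have h4 := sum_bound (2 * N) d fun j _ => by
          have := h1 j
          omega
        rw [← dval_eq_sum d (2 * N) h3] at h4
        rw [Set.mem_Icc]
        have h5 := abs_le.1 (show |dval d| ≤ ((t (2 * N) : ℤ) - 1) / 2 by omega)
        omega
      have hinj : Set.InjOn dval (DY Y N : Set (ℕ →₀ ℤ)) := by
        intro d hd e he hde
        obtain ⟨h1, -, -⟩ := mem_DY hYH (Finset.mem_coe.1 hd)
        obtain ⟨h2, -, -⟩ := mem_DY hYH (Finset.mem_coe.1 he)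
        exact dval_inj d e (fun j => (h1 j).trans (by omega)) (fun j => (h2 j).trans (by omega)) hde
      have hcard2 : (DY Y N).card ≤ (A ∩ Set.Icc (-(((t (2 * N) : ℤ) + 1) / 2) + 1)
          (-(((t (2 * N) : ℤ) + 1) / 2) + (t (2 * N) : ℕ))).ncard := by
        rw [← Finset.card_image_of_injOn hinj, ← Set.ncard_coe_finset]
        exact Set.ncard_le_ncard hsub ((Set.finite_Icc _ _).subset Set.inter_subset_right)
      have hT : (0 : ℝ) < t (2 * N) := by exact_mod_cast t_pos _
      rw [le_div_iff₀ hT]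
      have h6 : ((Y.card : ℝ) * ∏ j ∈ range (2 * N), (b j : ℝ)) ≤
          ((A ∩ Set.Icc (-(((t (2 * N) : ℤ) + 1) / 2) + 1)
          (-(((t (2 * N) : ℤ) + 1) / 2) + (t (2 * N) : ℕ))).ncard : ℝ) := by
        have := hcard.trans hcard2
        exact_mod_cast this
      refine le_trans ?_ h6
      have h7 : (0 : ℝ) ≤ ∏ j ∈ range (2 * N), (b j : ℝ) :=
        Finset.prod_nonneg fun j _ => Nat.cast_nonneg _
      have h8 : (0 : ℝ) < 1 / 2 ^ (2 * N + 1) := by positivity
      calc (1 : ℝ) / 16 * t (2 * N) ≤ 1 / 8 * ((1 / 2 + 1 / 2 ^ (2 * N + 1)) * t (2 * N)) := by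
            nlinarith
        _ ≤ 1 / 8 * ((∏ j ∈ range (2 * N), (b j : ℝ)) * 2 ^ N) := by gcongr
        _ = (2 ^ N / 8) * ∏ j ∈ range (2 * N), (b j : ℝ) := by ring
        _ ≤ (Y.card : ℝ) * ∏ j ∈ range (2 * N), (b j : ℝ) := by gcongr
    linarith
  · intro k α η hη hsub
    -- choose the scale
    obtain ⟨R, hR⟩ := exists_nat_gt (2 * Real.pi * (9 ^ k * (4 / 3)) / η)
    have hRpos : (0 : ℝ) < R := lt_of_le_of_lt (by positivity) hR
    have hR0 : 0 < R := by exact_mod_cast hRpos
    have hsmall : 2 * Real.pi * (9 ^ k * (4 / 3 * (1 / R))) < η := by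
      rw [div_lt_iff₀ hη] at hR
      have : 2 * Real.pi * (9 ^ k * (4 / 3 * (1 / R))) = 2 * Real.pi * (9 ^ k * (4 / 3)) / R := by
        ring
      rw [this, div_lt_iff₀ hRpos]
      linarith
    set m := R ^ k with hm
    obtain ⟨ε, hε1, -, hε3, hε4⟩ := signing hR0 (I nn m).card (I nn m)
      (fun j c => α c * t (2 * j)) (fun _ => 0) rfl (fun i _ => Or.inl rfl)
    set e := evenPart (I nn m) ε with he
    have hval : dval e = ∑ i ∈ I nn m, ε i * t (2 * i) := dval_evenPart _ _
    have hbohr : dval e ∈ bohr α η := by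
      intro c
      obtain ⟨z, hz⟩ := hε4 c
      refine lt_of_le_of_lt (exp_close _ z _ ?_) hsmall
      have : (α c * (dval e : ℤ) : ℝ) = ∑ i ∈ I nn m, (ε i : ℝ) * (α c * t (2 * i)) := by
        rw [hval]
        push_cast
        rw [Finset.mul_sum]
        apply Finset.sum_congr rfl
        intro i _
        ring
      rw [this]
      exact hz
    obtain ⟨a, ⟨d, hd1, hd2, rfl⟩, a', ⟨d', hd1', hd2', rfl⟩, s, ⟨F, -, rfl⟩, hz⟩ := hsub hbohr
    have heq : dval (d' + e) = dval (d + oddPart F) := by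
      rw [dval_add, dval_add, dval_oddPart, hz]
      push_cast
      ring
    have hdig : d' + e = d + oddPart F := by
      apply dval_inj _ _ _ _ heq
      · intro j
        have h1 := hd1' j
        rw [Finsupp.add_apply]
        obtain ⟨i, hi | hi⟩ : ∃ i, j = 2 * i ∨ j = 2 * i + 1 := ⟨j / 2, by omega⟩
        · rw [hi, he, evenPart_even, ← hi]
          have h2 : |(if i ∈ I nn m then ε i else 0)| ≤ 1 := by
            split_ifs with h3
            · rcases hε1 i h3 with h4 | h4 | h4 <;> rw [h4] <;> simp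
            · simp
          have := abs_add_le (d' j) (if i ∈ I nn m then ε i else 0)
          omega
        · rw [hi, he, evenPart_odd, ← hi, add_zero]
          omega
      · intro j
        have h1 := hd1 j
        rw [Finsupp.add_apply]
        obtain ⟨i, hi | hi⟩ : ∃ i, j = 2 * i ∨ j = 2 * i + 1 := ⟨j / 2, by omega⟩
        · rw [hi, oddPart_even, ← hi, add_zero]
          omega
        · rw [hi, oddPart_odd, ← hi]
          have h2 : |(if i ∈ F then (1 : ℤ) else 0)| ≤ 1 := by
            split_ifs <;> simp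
          have := abs_add_le (d j) (if i ∈ F then (1 : ℤ) else 0)
          omega
    have hpar : par d' + par e = par d := by
      have h1 : par (oddPart F) = 0 := by
        ext i
        rw [par_apply, oddPart_even]
        rfl
      rw [← par_add, hdig, par_add, h1, add_zero]
    have hpe : ∀ i, par e i = ((if i ∈ I nn m then ε i else 0 : ℤ) : ZMod 2) := by
      intro i
      rw [par_apply, he, evenPart_even]
    refine hB2 m (par e) ?_ ?_ (par d') hd2' (by rw [hpar]; exact hd2)
    · intro i hi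
      rw [hpe, if_neg hi]
      rfl
    · refine (Finset.card_le_card ?_).trans hε3
      intro i hi
      rw [Finset.mem_filter] at hi ⊢
      refine ⟨hi.1, ?_⟩
      have h1 := hi.2
      rw [hpe, if_pos hi.1] at h1
      rcases hε1 i hi.1 with h4 | h4 | h4
      · rw [h4] at h1; exact absurd h1 (by decide)
      · exact h4
      · rw [h4] at h1; exact absurd h1 (by decide)

end Pool.Agent.Results.MP_23b914_co.IPNotExpanding
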